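import Mathlib
import Pool.Agent.W712.RP.Stm

/-! Boxes adapted to a unit vector; Macbeath regions in balls (RP-U1) and caps of balls (RP-L3). -/

open MeasureTheory Set
open scoped ENNReal

namespace Pool.Agent.W773.RP

open Pool.Agent.W712.RP

theorem exists_rot {m : ℕ} (e : EuclideanSpace ℝ (Fin (m + 1))) (he : ‖e‖ = 1) :
    ∃ b : OrthonormalBasis (Fin (m + 1)) ℝ (EuclideanSpace ℝ (Fin (m + 1))), b 0 = e := by
  have hv : Orthonormal ℝ (({0} : Set (Fin (m + 1))).domRestrict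
      (fun _ : Fin (m + 1) => e)) := by
    constructor
    · intro i
      exact he
    · intro i j hij
      exact absurd (Subsingleton.elim i j) hij
  obtain ⟨b, hb⟩ := hv.exists_orthonormalBasis_extension_of_card_eq (by simp)
  exact ⟨b, hb 0 (by simp)⟩

theorem box_vol {m : ℕ}
    (b : OrthonormalBasis (Fin (m + 1)) ℝ (EuclideanSpace ℝ (Fin (m + 1)))) (A B : ℝ) :
    volume {v : EuclideanSpace ℝ (Fin (m + 1)) | |b.repr v 0| ≤ A ∧
      ∀ i : Fin m, |b.repr v i.succ| ≤ B} =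
      ENNReal.ofReal (2 * A) * ENNReal.ofReal (2 * B) ^ m := by
  set S : Set (Fin (m+1) → ℝ) := Set.pi univ (fun i : Fin (m + 1) =>
    Icc (- (Fin.cons A (fun _ => B) : Fin (m+1) → ℝ) i)
          ((Fin.cons A (fun _ => B) : Fin (m+1) → ℝ) i)) with hS
  have hSm : MeasurableSet S := MeasurableSet.univ_pi fun i => measurableSet_Icc
  have h1 : {v : EuclideanSpace ℝ (Fin (m + 1)) | |b.repr v 0| ≤ A ∧
      ∀ i : Fin m, |b.repr v i.succ| ≤ B} = b.repr ⁻¹' ((WithLp.ofLp :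
        EuclideanSpace ℝ (Fin (m+1)) → (Fin (m+1) → ℝ)) ⁻¹' S) := by
    ext v
    simp only [hS, mem_ofPred_eq, mem_preimage, mem_pi, mem_univ, true_implies, mem_Icc, ← abs_le]
    rw [Fin.forall_fin_succ]
    simp
  have h2 : MeasurableSet ((WithLp.ofLp :
        EuclideanSpace ℝ (Fin (m+1)) → (Fin (m+1) → ℝ)) ⁻¹' S) :=
    (PiLp.volume_preserving_ofLp (Fin (m+1))).measurable hSm
  rw [h1, b.measurePreserving_repr.measure_preimage h2.nullMeasurableSet,
    (PiLp.volume_preserving_ofLp (Fin (m+1))).measure_preimage hSm.nullMeasurableSet]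
  rw [hS, volume_pi_pi, Fin.prod_univ_succ]
  simp [Real.volume_Icc, two_mul]

theorem norm_sq_rot {m : ℕ}
    (b : OrthonormalBasis (Fin (m + 1)) ℝ (EuclideanSpace ℝ (Fin (m + 1))))
    (v : EuclideanSpace ℝ (Fin (m + 1))) :
    ‖v‖ ^ 2 = (b.repr v 0) ^ 2 + ∑ i : Fin m, (b.repr v i.succ) ^ 2 := by
  rw [← b.repr.norm_map v, EuclideanSpace.norm_sq_eq, Fin.sum_univ_succ]
  simp

/-- RP-L3. -/
theorem l3 : S_L3 := by
  intro k hk R hR
  obtain ⟨m, rfl⟩ : ∃ m, k = m + 1 := ⟨k - 1, by omega⟩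
  refine ⟨2 * (2 * Real.sqrt (2 * R)) ^ m, by positivity, ?_⟩
  intro p ν h hν hh
  obtain ⟨b, hb⟩ := exists_rot ν hν
  have hsub : {y : EuclideanSpace ℝ (Fin (m+1)) | ‖y - p‖ ^ 2 ≤ 2 * R * inner ℝ (p - y) ν ∧
      inner ℝ (p - y) ν ≤ h} ⊆ (fun y => y - p) ⁻¹' {v : EuclideanSpace ℝ (Fin (m + 1)) |
        |b.repr v 0| ≤ h ∧ ∀ i : Fin m, |b.repr v i.succ| ≤ Real.sqrt (2 * R * h)} := by
    rintro y ⟨h1, h2⟩
    have h0 : b.repr (y - p) 0 = - inner ℝ (p - y) ν := by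
      rw [b.repr_apply_apply, hb, real_inner_comm, ← inner_neg_left, neg_sub]
    have h3 : 0 ≤ inner ℝ (p - y) ν := by
      by_contra hcon
      push Not at hcon
      have : 2 * R * inner ℝ (p - y) ν < 0 := by
        have : 0 < 2 * R := by positivity
        nlinarith
      have h4 : 0 ≤ ‖y - p‖ ^ 2 := by positivity
      linarith
    refine ⟨?_, ?_⟩
    · show |b.repr (y - p) 0| ≤ h
      rw [h0, abs_neg, abs_of_nonneg h3]
      exact h2
    · intro i
      show |b.repr (y - p) i.succ| ≤ Real.sqrt (2 * R * h)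
      apply Real.abs_le_sqrt
      have h5 := norm_sq_rot b (y - p)
      have h6 : (b.repr (y - p) i.succ) ^ 2 ≤ ∑ j : Fin m, (b.repr (y - p) j.succ) ^ 2 :=
        Finset.single_le_sum (f := fun j : Fin m => (b.repr (y - p) j.succ) ^ 2)
          (fun j _ => sq_nonneg _) (Finset.mem_univ i)
      have h7 : 2 * R * inner ℝ (p - y) ν ≤ 2 * R * h :=
        mul_le_mul_of_nonneg_left h2 (by positivity)
      have h8 := sq_nonneg (b.repr (y - p) 0)
      linarith
  refine (measure_mono hsub).trans ?_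
  have hpre : ∀ S : Set (EuclideanSpace ℝ (Fin (m + 1))),
      volume ((fun y => y - p) ⁻¹' S) = volume S := by
    intro S
    simp only [sub_eq_add_neg]
    exact measure_preimage_add_right volume (-p) S
  rw [hpre, box_vol]
  rw [← ENNReal.ofReal_pow (by positivity), ← ENNReal.ofReal_mul (by positivity)]
  apply ENNReal.ofReal_le_ofReal
  rw [Real.sqrt_mul (by positivity) h, ← mul_assoc 2, mul_pow]
  have h9 : h ^ ((((m + 1 : ℕ) : ℝ) + 1) / 2) = h * Real.sqrt h ^ m := by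
    rw [Real.sqrt_eq_rpow, ← Real.rpow_natCast (h ^ (1 / 2 : ℝ)) m, ← Real.rpow_mul hh.le]
    nth_rewrite 2 [← Real.rpow_one h]
    rw [← Real.rpow_add hh]
    congr 1
    push_cast
    ring
  rw [h9]
  apply le_of_eq
  ring

/-- Comparison of an ellipsoidal box with the Macbeath region. -/
theorem mac_ball {m : ℕ} (K : Set (EuclideanSpace ℝ (Fin (m + 1)))) 
    (w z : EuclideanSpace ℝ (Fin (m + 1))) (ρ τ : ℝ) (hτ : 0 < τ) (hτρ : τ ≤ ρ)
    (hK : Metric.closedBall w ρ ⊆ K) (hz : dist z w ≤ ρ - τ) :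
    ENNReal.ofReal (τ * (Real.sqrt (3 / (m + 1)) * Real.sqrt (ρ * τ)) ^ m) ≤
      volume (Mac K z 1) := by
  have hρ : 0 < ρ := lt_of_lt_of_le hτ hτρ
  obtain ⟨e, a, he, ha0, ha1, hzw⟩ : ∃ (e : EuclideanSpace ℝ (Fin (m + 1))) (a : ℝ), ‖e‖ = 1 ∧
      0 ≤ a ∧ a ≤ ρ - τ ∧ z - w = a • e := by
    by_cases h : z - w = 0
    · refine ⟨EuclideanSpace.single 0 1, 0, by simp, le_refl _, by linarith, by simp [h]⟩
    · refine ⟨‖z - w‖⁻¹ • (z - w), ‖z - w‖, norm_smul_inv_norm h, norm_nonneg _, ?_, ?_⟩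
      · rw [← dist_eq_norm]; exact hz
      · rw [smul_smul, mul_inv_cancel₀ (norm_ne_zero_iff.mpr h), one_smul]
  obtain ⟨b, hb⟩ := exists_rot e he
  set B : ℝ := Real.sqrt (3 * (ρ * τ) / (4 * (m + 1))) with hB
  have key : ∀ v : EuclideanSpace ℝ (Fin (m + 1)), |b.repr v 0| ≤ τ / 2 →
      (∀ i : Fin m, |b.repr v i.succ| ≤ B) → z + v ∈ K := by
    intro v h1 h2
    apply hK
    rw [Metric.mem_closedBall, dist_eq_norm]
    have hzv : z + v - w = a • e + v := by rw [← hzw]; abel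
    rw [hzv]
    apply abs_le_of_sq_le_sq' _ hρ.le |>.2
    rw [norm_sq_rot b]
    have h3 : b.repr (a • e + v) 0 = a + b.repr v 0 := by
      rw [map_add, map_smul, ← hb, b.repr_self]
      simp
    have h4 : ∀ i : Fin m, b.repr (a • e + v) i.succ = b.repr v i.succ := by
      intro i
      rw [map_add, map_smul, ← hb, b.repr_self]
      simp
    rw [h3]
    simp only [h4]
    have h5 : ∑ i : Fin m, (b.repr v i.succ) ^ 2 ≤ 3 / 4 * (ρ * τ) := by
      have h6 : ∀ i : Fin m, (b.repr v i.succ) ^ 2 ≤ 3 * (ρ * τ) / (4 * (m + 1)) := by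
        intro i
        have := h2 i
        rw [hB] at this
        have h7 := Real.sqrt_nonneg (3 * (ρ * τ) / (4 * (m + 1)))
        have h8 : |b.repr v i.succ| ^ 2 ≤ Real.sqrt (3 * (ρ * τ) / (4 * (m + 1))) ^ 2 :=
          pow_le_pow_left₀ (abs_nonneg _) this 2
        rwa [sq_abs, Real.sq_sqrt (by positivity)] at h8
      calc ∑ i : Fin m, (b.repr v i.succ) ^ 2 ≤ ∑ i : Fin m, 3 * (ρ * τ) / (4 * (m + 1)) :=
            Finset.sum_le_sum fun i _ => h6 i
        _ = (m / (m + 1)) * (3 / 4 * (ρ * τ)) := by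
            rw [Finset.sum_const, Finset.card_univ, Fintype.card_fin, nsmul_eq_mul]
            field_simp
        _ ≤ 1 * (3 / 4 * (ρ * τ)) := by
            apply mul_le_mul_of_nonneg_right _ (by positivity)
            rw [div_le_one (by positivity)]
            linarith
        _ = 3 / 4 * (ρ * τ) := one_mul _
    have h9 : (a + b.repr v 0) ^ 2 ≤ (ρ - τ / 2) ^ 2 := by
      rw [abs_le] at h1
      apply sq_le_sq'
      · linarith [h1.1]
      · linarith [h1.2]
    nlinarith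
  have hsub : {v : EuclideanSpace ℝ (Fin (m + 1)) |
        |b.repr v 0| ≤ τ / 2 ∧ ∀ i : Fin m, |b.repr v i.succ| ≤ B} ⊆
        (fun v => v + z) ⁻¹' (Mac K z 1) := by
    rintro v ⟨h1, h2⟩
    have h1' : |b.repr (-v) 0| ≤ τ / 2 := by
      rw [map_neg]; simpa using h1
    have h2' : ∀ i : Fin m, |b.repr (-v) i.succ| ≤ B := by
      intro i
      rw [map_neg]; simpa using h2 i
    have e1 := key v h1 h2
    have e2 := key (-v) h1' h2'
    show z + (1 : ℝ)⁻¹ • (v + z - z) ∈ K ∧ z - (1 : ℝ)⁻¹ • (v + z - z) ∈ K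
    rw [inv_one, one_smul, add_sub_cancel_right]
    exact ⟨e1, by rw [sub_eq_add_neg]; exact e2⟩
  have h10 := measure_mono (μ := volume) hsub
  rw [measure_preimage_add_right, box_vol] at h10
  refine le_trans (le_of_eq ?_) h10
  rw [← ENNReal.ofReal_pow (by positivity), ← ENNReal.ofReal_mul (by positivity)]
  congr 1
  have h11 : 2 * B = Real.sqrt (3 / (m + 1)) * Real.sqrt (ρ * τ) := by
    rw [← Real.sqrt_mul (by positivity), hB]
    rw [show (3 / ((m : ℝ) + 1) * (ρ * τ)) = 2 ^ 2 * (3 * (ρ * τ) / (4 * (m + 1))) by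
      field_simp; ring]
    rw [Real.sqrt_mul (by positivity), Real.sqrt_sq (by norm_num)]
  rw [h11]
  ring

/-- RP-U1. -/
theorem u1 : S_U1 := by
  intro k hk
  obtain ⟨m, rfl⟩ : ∃ m, k = m + 1 := ⟨k - 1, by omega⟩
  refine ⟨Real.sqrt (3 / (m + 1)) ^ m, by positivity, ?_⟩
  intro K hKb w z ρ τ hτ hτρ hK hz
  have hρ : 0 < ρ := lt_of_lt_of_le hτ hτρ
  have h1 := mac_ball K w z ρ τ hτ hτρ hK hz
  have hfin : volume (Mac K z 1) ≠ ⊤ := by
    have hb : Bornology.IsBounded (Mac K z 1) := by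
      apply hKb.compact.isBounded.subset
      intro y hy
      have := hy.1
      rw [inv_one, one_smul, add_sub_cancel] at this
      exact this
    exact hb.measure_lt_top.ne
  have h2 := ENNReal.toReal_mono hfin h1
  rw [ENNReal.toReal_ofReal (by positivity)] at h2
  refine le_trans (le_of_eq ?_) h2
  rw [Real.sqrt_mul hρ.le, mul_pow, mul_pow]
  have h3 : ρ ^ ((((m + 1 : ℕ) : ℝ) - 1) / 2) = Real.sqrt ρ ^ m := by
    rw [Real.sqrt_eq_rpow, ← Real.rpow_natCast (ρ ^ (1 / 2 : ℝ)) m, ← Real.rpow_mul hρ.le]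
    congr 1
    push_cast
    ring
  have h4 : τ ^ ((((m + 1 : ℕ) : ℝ) + 1) / 2) = τ * Real.sqrt τ ^ m := by
    rw [Real.sqrt_eq_rpow, ← Real.rpow_natCast (τ ^ (1 / 2 : ℝ)) m, ← Real.rpow_mul hτ.le]
    nth_rewrite 2 [← Real.rpow_one τ]
    rw [← Real.rpow_add hτ]
    congr 1
    push_cast
    ring
  rw [h3, h4]
  ring

end Pool.Agent.W773.RP
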